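import Pool.Agent.R972.PC.Main

/-!
# The optimal pairwise coupling ratio is larger than two for small powers

For all sufficiently small `q > 0` the optimal pairwise coupling ratio of `𝒫(ℝ)` for the cost
`|x - y|^q` is at least `21/10`; in particular it is not `2`.
-/

set_option autoImplicit false

open MeasureTheory Pool.Agent.R972.PC
open scoped ENNReal

theorem Pool.Agent.Results.MP_ee92c9_pr.RatioAboveTwo.result :
    ∃ q₀ : ℝ, 0 < q₀ ∧ q₀ ≤ 1 ∧ ∀ q : ℝ, 0 < q → q < q₀ → (21 / 10 : ℝ≥0∞) ≤ optRatio q :=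
  Pool.Agent.R972.PC.main
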